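import Pool.Agent.TH464.PO.PolyBase

set_option autoImplicit false

/-!
# Forms `a_i m + 1` taking almost prime values simultaneously: patterns with prescribed surroundings

Let `a_1, ..., a_K` be distinct positive integers, for instance `6, 12, 18`. Let `m` be good if
all `a_i m + 1` have at most `r` prime factors, all larger than `X ^ (1 / r)`. Let `V` be the
sieve density of this condition, and for a finite set `B` let `V_B` be the sieve density of the
condition that all `m + t`, `t ∈ B`, satisfy it. Given `θ > 0`, a size `β` of patterns, a number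
`w` of windows, a size `x` and an accuracy `ε`, for all `r ≥ r0` and all large `X`, in ALL
intervals `(Z, Z + Y]` inside `[0, 2 X]` of length `Y ≥ X ^ θ`, for ALL sets `B ⊆ [0, x / V]` of
at most `β` elements, ALL disjoint windows `(u_i, v_i] ⊆ [0, x / V]` without elements of `B` and
ALL finite sets `E_i`: the number of the `m` in `(Z, Z + Y]` such that all `m + h`, `h ∈ B`, are
good and the number of the good integers in `(m + u_i, m + v_i]` lies in `E_i` for every `i` is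
`Y V_B` times the product of the Poisson probabilities of the `E_i` for the means
`(v_i - u_i) V`, up to `ε Y V_B`.
-/

namespace Pool.Agent.Results.MP_fb5b0b_nt.Patterns

open Finset Filter

/-- `N` has at most `B` prime factors (with multiplicity), all of them larger than `z`. -/
def AlmostPrime (B : ℕ) (z : ℝ) (N : ℕ) : Prop :=
  N.primeFactorsList.length ≤ B ∧ ∀ p : ℕ, p.Prime → p ∣ N → z < (p : ℝ)

variable {K : ℕ}

/-- `m` is good: all `a_i m + 1` have at most `r` prime factors, all of them larger than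
`X ^ (1 / r)`. -/
def Good (a : Fin (K + 1) → ℕ) (r X m : ℕ) : Prop :=
  ∀ i, AlmostPrime r ((X : ℝ) ^ (1 / (r : ℝ))) (a i * m + 1)

open Classical in
/-- The sieve density: the product of `1 - ρ(p) / p` over the primes `p ≤ X ^ (1 / r)`, where `ρ(p)` is
the number of the `m` mod `p` with `p ∣ a_i m + 1` for some `i`. -/
noncomputable def V (a : Fin (K + 1) → ℕ) (r X : ℕ) : ℝ :=
  ∏ p ∈ (Finset.range (⌊(X : ℝ) ^ (1 / (r : ℝ))⌋₊ + 1)).filter Nat.Prime,
    (1 - (((Finset.range p).filter (fun m : ℕ => ∃ i, p ∣ a i * m + 1)).card : ℝ) / p)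

open Classical in
/-- The sieve density of the pattern `B`: the product of `1 - ρ(p) / p` over the primes `p ≤ X ^ (1 / r)`,
where `ρ(p)` is the number of the `m` mod `p` for which the previous condition holds at `m + t` for some
`t ∈ B`. -/
noncomputable def VB (a : Fin (K + 1) → ℕ) (r X : ℕ) (B : Finset ℕ) : ℝ :=
  ∏ p ∈ (Finset.range (⌊(X : ℝ) ^ (1 / (r : ℝ))⌋₊ + 1)).filter Nat.Prime,
    (1 - (((Finset.range p).filter (fun m : ℕ => ∃ t ∈ B, ∃ i, p ∣ a i * (m + t) + 1)).card : ℝ) / p)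

open Classical in
/-- The number of the good `m` in `(u, v]`. -/
noncomputable def count (a : Fin (K + 1) → ℕ) (r X : ℕ) (u v : ℕ) : ℕ :=
  ((Finset.Ioc u v).filter (fun m => Good a r X m)).card

/-- The probability of `E` for the Poisson distribution of mean `x`. -/
noncomputable def Poi (x : ℝ) (E : Finset ℕ) : ℝ :=
  ∑ j ∈ E, Real.exp (-x) * x ^ j / j.factorial

open Pool.Agent.TH464.PO Pool.Agent.TH464.PW Pool.Agent.W123.RU Pool.Agent.W123.RU.Poly
open Pool.Agent.H373R2.T7 Pool.Agent.W123.RP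

/-- the polynomials `a_i X + 1` -/
noncomputable def fL (a : Fin (K + 1) → ℕ) : Fin (K + 1) → Polynomial ℤ := fun i => ln (a i) 1

lemma ln_nat (a m : ℕ) : ((ln (a : ℤ) 1).eval (m : ℤ)) = ((a * m + 1 : ℕ) : ℤ) := by
  rw [ln_eval]
  push_cast
  ring

lemma fL_sys (a : Fin (K + 1) → ℕ) (ha : ∀ i, 1 ≤ a i) (hinj : Function.Injective a) :
    Sys (fL a) := by
  have h0 : ∀ i, (a i : ℤ) ≠ 0 := fun i => by
    have := ha i
    exact_mod_cast (by omega : a i ≠ 0)
  refine ⟨fun i => ln_irr _ 1 (h0 i) isCoprime_one_right, fun i => ?_, fun i => ?_,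
    fun i j hij => ?_, fun p hp => ⟨0, fun i h => ?_⟩⟩
  · show 0 < (ln (a i : ℤ) 1).natDegree
    rw [ln_deg _ 1 (h0 i)]
    norm_num
  · show 0 < (ln (a i : ℤ) 1).leadingCoeff
    rw [ln_lead _ 1 (h0 i)]
    have := ha i
    exact_mod_cast (by omega : 0 < a i)
  · apply hinj
    have h1 : ln (a i : ℤ) 1 = ln (a j : ℤ) 1 := hij
    have h2 := congrArg Polynomial.leadingCoeff h1
    rw [ln_lead _ 1 (h0 i), ln_lead _ 1 (h0 j)] at h2
    exact_mod_cast h2
  · have h1 : (p : ℤ) ∣ (ln (a i : ℤ) 1).eval ((0 : ℕ) : ℤ) := h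
    rw [ln_nat] at h1
    apply not_dvd_one p hp
    simpa using h1

lemma fL_noTr (a : Fin (K + 1) → ℕ) (ha : ∀ i, 1 ≤ a i) : NoTr (fL a) := by
  intro i j t ht
  apply ne_comp _ _ t 0
  show (ln (a i : ℤ) 1).eval (0 : ℤ) ≠ (ln (a j : ℤ) 1).eval ((0 : ℤ) + (t : ℤ))
  rw [ln_eval, ln_eval]
  have h1 : (1 : ℤ) ≤ a j := by exact_mod_cast ha j
  have h2 : (1 : ℤ) ≤ t := by exact_mod_cast ht
  intro h
  nlinarith

lemma good_iff (a : Fin (K + 1) → ℕ) (ha : ∀ i, 1 ≤ a i) (r : ℕ) (hr : 1 ≤ r) : ∀ᶠ X : ℕ in atTop,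
    ∀ m : ℕ, m ≤ 3 * X → (Sf (Q (fL a)) ⌊(X : ℝ) ^ (1 / (r : ℝ))⌋₊ m ↔ Good a r X m) := by
  filter_upwards [sf_sys (fL a) (fun _ => 1) (fun i => (ln_deg _ 1 (by
    have := ha i
    exact_mod_cast (by omega : a i ≠ 0))).le) r hr] with X hX m hm
  rw [hX m hm]
  unfold Good
  apply forall_congr'
  intro i
  have e : (fL a i).eval (m : ℤ) = ((a i * m + 1 : ℕ) : ℤ) := ln_nat _ _
  rw [apn_iff, one_mul, e, Int.natAbs_natCast]
  rfl

lemma Q_iff (a : Fin (K + 1) → ℕ) (p m : ℕ) : Q (fL a) p m ↔ (∃ i, p ∣ a i * m + 1) := by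
  unfold Q
  apply exists_congr
  intro i
  have e : (fL a i).eval (m : ℤ) = ((a i * m + 1 : ℕ) : ℤ) := ln_nat _ _
  rw [e, Int.natCast_dvd_natCast]

open Classical in
/-- **Patterns with prescribed surroundings**, in all intervals. -/
theorem result (a : Fin (K + 1) → ℕ) (ha : ∀ i, 1 ≤ a i) (hinj : Function.Injective a)
    (θ : ℝ) (hθ : 0 < θ) (β w : ℕ) (x ε : ℝ) (hε : 0 < ε) :
    ∃ r0 : ℕ, ∀ r : ℕ, r0 ≤ r → ∀ᶠ X : ℕ in atTop, ∀ Z Y : ℕ, (X : ℝ) ^ θ ≤ Y → Z + Y ≤ 2 * X →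
      ∀ B : Finset ℕ, B.card ≤ β → (∀ h ∈ B, h * V a r X ≤ x) →
      ∀ u v : Fin w → ℕ, (∀ i, u i ≤ v i) → (∀ i, v i * V a r X ≤ x) →
      (∀ i j, i ≠ j → v i ≤ u j ∨ v j ≤ u i) → (∀ i, ∀ h ∈ B, h ≤ u i ∨ v i < h) →
      ∀ E : Fin w → Finset ℕ,
        |(((Finset.Ioc Z (Z + Y)).filter (fun m => (∀ h ∈ B, Good a r X (m + h)) ∧
            ∀ i, count a r X (m + u i) (m + v i) ∈ E i)).card : ℝ) -
          Y * VB a r X B * ∏ i, Poi (((v i : ℝ) - u i) * V a r X) (E i)| ≤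
            ε * (Y * VB a r X B) := by
  obtain ⟨r0, h0⟩ := poly_baseg (fL a) (fL_sys a ha hinj) (fL_noTr a ha) θ hθ β w x ε hε
  refine ⟨max r0 1, ?_⟩
  intro r hr
  filter_upwards [h0 r ((le_max_left _ _).trans hr),
    good_iff a ha r ((le_max_right _ _).trans hr)] with X hX hap
  exact hX (Good a r X) (V a r X) (VB a r X) hap
    (V_gen' _ _ (Q_iff a) _) (fun B => V_gen' _ _
    (fun p m => exists_congr fun t => and_congr_right fun _ => Q_iff a p (m + t)) _)

end Pool.Agent.Results.MP_fb5b0b_nt.Patterns
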